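import Pool.Agent.Lib.H85TF.Draw

/-!
# H85TF, file DrawX: from 2-connected plane edge sets to simple drawings, with exactly `2n - 3` edges
-/

set_option autoImplicit false

open H53P SimpleDraw

namespace H85TF

open Finset H98P H98Z H98M H63F H30F H63L H97W

theorem gr_edgeSet {n : ℕ} {H : Finset (Sym2 (Fin n))} (hH : ∀ e ∈ H, ¬ e.IsDiag) :
    (gr H).edgeSet = (H : Set (Sym2 (Fin n))) := by
  ext e
  have h1 : e ∈ (gr H).edgeSet ↔ e ∈ (SimpleGraph.fromEdgeSet (H : Set (Sym2 (Fin n)))).edgeSet := Iff.rfl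
  rw [h1, SimpleGraph.edgeSet_fromEdgeSet]
  exact ⟨fun h => h.1, fun h => ⟨h, fun h2 => hH e (mem_coe.1 h) h2⟩⟩

/-- A plane 2-connected edge set `G` with at least `2n - 3` edges and a subset `F` of degrees at most two gives a plane
2-connected subdrawing with exactly `2n - 3` edges which contains `F`. -/
theorem toDrawingExact {n : ℕ} (hn : 3 ≤ n) (D : SimpleDrawing n) {G F : Finset (Sym2 (Fin n))}
    (hGL : G ⊆ LW univ) (hGP : Plane (H53P.crossT (H53P.table D)) G) (hT : ¬ Disc univ G)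
    (hT2 : ∀ z, ¬ Disc (univ.erase z) G) (hF : F ⊆ G) (hdeg : ∀ v, dg F v ≤ 2) (hm : 2 * n ≤ G.card + 3) :
    ∃ H : SimpleGraph (Fin n), D.Plane H ∧ H.Connected ∧ (∀ v, (H.induce {w | w ≠ v}).Connected) ∧
      H.edgeSet.ncard = 2 * n - 3 ∧ gr F ≤ H ∧ ∀ v, ((gr F).neighborSet v).ncard = dg F v := by
  have hdiag := not_diag_of_LW hGL
  obtain ⟨H, h1, h2, h3, h4, h5⟩ := H63T.trim_exact G F hdiag hF hdeg hT hT2
    (by rw [Fintype.card_fin]; omega) (by rw [Fintype.card_fin]; exact hm)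
  rw [Fintype.card_fin] at h5
  refine ⟨gr H, plane_of D (plane_sub h2 hGP), ?_, fun v => ?_, ?_, H98TF.gr_mono h1,
    fun v => H98TF.degree_gr (fun e he => hdiag e (hF he)) v⟩
  · have h6 := H98TF.induce_connected ⟨⟨0, by omega⟩, mem_univ _⟩ h3
    have h7 : {v : Fin n | v ∈ (univ : Finset (Fin n))} = Set.univ := by
      ext v
      simp
    rw [h7] at h6
    exact (SimpleGraph.induceUnivIso (gr H)).connected_iff.1 h6
  · have h6 : (univ.erase v).Nonempty := by
      rw [← card_pos, card_erase_of_mem (mem_univ _), card_univ, Fintype.card_fin]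
      omega
    have h7 := H98TF.induce_connected h6 (h4 v)
    have h8 : {w : Fin n | w ∈ univ.erase v} = {w | w ≠ v} := by
      ext w
      simp
    rw [h8] at h7
    exact h7
  · rw [gr_edgeSet fun e he => hdiag e (h2 he), Set.ncard_coe_finset, h5]

end H85TF
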