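import Mathlib

/-!
# H85TF, file P1: the exchange lemma for sets covered by pairwise disjoint cycles

`Cov E A`: some subset `F` of the edge set `E`, in which every vertex has degree `0` or `2`, has
degree `2` at all the vertices of `A`. THEOREM `exch`: if `A + b` and `A + d` are covered and there
is a path of `E` from `b` to `d` for no inner vertex `r` of which `A + r` is covered, then
`A + b + d` is covered. Proof: walk from `F₁` (which covers `A + b`) towards `F₂` (which covers
`A + d`), one edge of `F₁ ∆ F₂` at a time, starting at `d`.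
-/

set_option autoImplicit false

namespace H85TF

open Finset

variable {V : Type*} [DecidableEq V]

/-- The degree of `v` in the edge set `F`. -/
def dg (F : Finset (Sym2 V)) (v : V) : ℕ := (F.filter fun e => v ∈ e).card

/-- `A` is covered by pairwise disjoint cycles of `E`. -/
def Cov (E : Finset (Sym2 V)) (A : Finset V) : Prop :=
  ∃ F ⊆ E, (∀ v, dg F v = 0 ∨ dg F v = 2) ∧ ∀ v ∈ A, dg F v = 2

theorem dg_insert {F : Finset (Sym2 V)} {a u : V} (h : s(a, u) ∉ F) (v : V) :
    dg (insert s(a, u) F) v = dg F v + if v = a ∨ v = u then 1 else 0 := by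
  unfold dg
  rw [filter_insert]
  by_cases hv : v ∈ s(a, u)
  · rw [if_pos hv, card_insert_of_notMem (fun h' => h (mem_filter.1 h').1),
      if_pos (by simpa using hv)]
  · rw [if_neg hv, if_neg (by simpa using hv)]
    rfl

theorem dg_erase {F : Finset (Sym2 V)} {a u : V} (h : s(a, u) ∈ F) (v : V) :
    dg F v = dg (F.erase s(a, u)) v + if v = a ∨ v = u then 1 else 0 := by
  have h1 := dg_insert (F := F.erase s(a, u)) (a := a) (u := u) (notMem_erase _ _) v
  rwa [insert_erase h] at h1

theorem dg_pos {F : Finset (Sym2 V)} {a u : V} (h : s(a, u) ∈ F) : 0 < dg F a :=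
  card_pos.2 ⟨s(a, u), mem_filter.2 ⟨h, by simp⟩⟩

theorem dg_pos' {F : Finset (Sym2 V)} {a u : V} (h : s(a, u) ∈ F) : 0 < dg F u :=
  card_pos.2 ⟨s(a, u), mem_filter.2 ⟨h, by simp⟩⟩

theorem exists_edge {F F' : Finset (Sym2 V)} {a : V} (h : dg F' a < dg F a) :
    ∃ u, s(a, u) ∈ F ∧ s(a, u) ∉ F' := by
  by_contra hcon
  push Not at hcon
  refine absurd (card_le_card (s := F.filter fun e => a ∈ e) (t := F'.filter fun e => a ∈ e) ?_)
    (not_le.2 h)
  intro e he
  rw [mem_filter] at he ⊢
  obtain ⟨u, rfl⟩ := he.2
  exact ⟨hcon u he.1, he.2⟩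

theorem dg_union_zero {F F₁ F₂ : Finset (Sym2 V)} (h : F ⊆ F₁ ∪ F₂) {v : V} (h1 : dg F₁ v = 0)
    (h2 : dg F₂ v = 0) : dg F v = 0 := by
  unfold dg at *
  rw [card_eq_zero] at *
  rw [filter_eq_empty_iff] at *
  intro e he
  rcases mem_union.1 (h he) with h3 | h3
  · exact h1 h3
  · exact h2 h3

/-- Adding a path whose inner vertices have degree `0`. -/
theorem addPath {E : Finset (Sym2 V)} {d : V} :
    ∀ {x : V} (p : (SimpleGraph.fromEdgeSet (E : Set (Sym2 V))).Walk x d), p.IsPath →
      ∀ F : Finset (Sym2 V), F ⊆ E → x ≠ d → s(x, d) ∉ F → dg F x = 1 → dg F d = 1 →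
      (∀ v, v ≠ x → v ≠ d → dg F v = 0 ∨ dg F v = 2) →
      (∀ r ∈ p.support, r ≠ x → r ≠ d → dg F r = 0) →
      ∃ F' ⊆ E, (∀ v, dg F' v = 0 ∨ dg F' v = 2) ∧ dg F' x = 2 ∧ dg F' d = 2 ∧
        ∀ v, dg F v = 2 → dg F' v = 2 := by
  intro x p
  induction p with
  | nil => intro _ F _ h; exact absurd rfl h
  | @cons x y d h q ih =>
    intro hp F hF hxd hne hx hd hdeg hin
    rw [SimpleGraph.fromEdgeSet_adj] at h
    obtain ⟨hxy, hxy'⟩ := h
    rw [SimpleGraph.Walk.cons_isPath_iff] at hp
    by_cases hyd : y = d
    · subst hyd
      have key := dg_insert hne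
      refine ⟨insert s(x, y) F, insert_subset (by exact_mod_cast hxy) hF, ?_, ?_, ?_, ?_⟩
      · intro v
        rw [key v]
        by_cases h1 : v = x
        · subst h1; simp [hx]
        · by_cases h2 : v = y
          · subst h2; simp [hd]
          · simpa [h1, h2] using hdeg v h1 h2
      · rw [key x]; simp [hx]
      · rw [key y]; simp [hd]
      · intro v hv
        rw [key v]
        have h1 : v ≠ x := fun e => by subst e; omega
        have h2 : v ≠ y := fun e => by subst e; omega
        simpa [h1, h2] using hv
    · have hy0 : dg F y = 0 := hin y (by simp) (Ne.symm hxy') hyd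
      have hnF : s(x, y) ∉ F := fun h' => by
        have := dg_pos' h'
        omega
      have key := dg_insert hnF
      obtain ⟨F', hF', h1, h2, h3, h4⟩ := ih hp.1 (insert s(x, y) F)
        (insert_subset (by exact_mod_cast hxy) hF) hyd
        (by
          intro h'
          rcases mem_insert.1 h' with h' | h'
          · rw [Sym2.eq_iff] at h'
            rcases h' with h' | h'
            · exact hxy' h'.1.symm
            · exact hxd h'.2.symm
          · have := dg_pos h'
            omega)
        (by rw [key y]; simp [hy0])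
        (by
          rw [key d]
          have h1 : d ≠ x := Ne.symm hxd
          have h2 : d ≠ y := Ne.symm hyd
          simpa [h1, h2] using hd)
        (by
          intro v hv1 hv2
          rw [key v]
          by_cases h1 : v = x
          · subst h1; simp [hx]
          · simpa [h1, hv1] using hdeg v h1 hv2)
        (by
          intro r hr hr1 hr2
          have h1 : r ≠ x := fun e => hp.2 (e ▸ hr)
          rw [key r]
          have := hin r (by simp [hr]) h1 hr2
          simpa [h1, hr1] using this)
      refine ⟨F', hF', h1, h4 x (by rw [key x]; simp [hx]), h3, fun v hv => h4 v ?_⟩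
      rw [key v]
      have h5 : v ≠ x := fun e => by subst e; omega
      have h6 : v ≠ y := fun e => by subst e; omega
      simpa [h5, h6] using hv

/-- The walk from `F₁` towards `F₂`. -/
theorem walk {E F₁ F₂ : Finset (Sym2 V)} (hE : ∀ e ∈ E, ¬ e.IsDiag) (h1 : F₁ ⊆ E) (h2 : F₂ ⊆ E)
    {A : Finset V} {b d : V} (hbd : b ≠ d) (hbA : b ∉ A) (hdA : d ∉ A)
    (hd1 : dg F₁ d = 0) (hb2 : dg F₂ b = 0) (hdeg2 : ∀ v, dg F₂ v = 0 ∨ dg F₂ v = 2)
    (hA2 : ∀ v ∈ A, dg F₂ v = 2) :
    ∀ (k : ℕ) (F : Finset (Sym2 V)) (a : V), (symmDiff F F₂).card < k → F ⊆ F₁ ∪ F₂ →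
      a ≠ b → a ≠ d → dg F d = 1 → dg F b = 2 → (dg F a = 1 ∨ dg F a = 3) →
      (∀ v, v ≠ a → v ≠ d → dg F v = 0 ∨ dg F v = 2) → (∀ v ∈ A, v ≠ a → dg F v = 2) →
      ∃ F' ⊆ F₁ ∪ F₂, (∀ v ∈ A, dg F' v = 2) ∧
        (((∀ v, dg F' v = 0 ∨ dg F' v = 2) ∧ dg F' b = 2 ∧ dg F' d = 2) ∨
          (dg F' b = 1 ∧ dg F' d = 1 ∧ ∀ v, v ≠ b → v ≠ d → dg F' v = 0 ∨ dg F' v = 2)) := by
  intro k
  induction k with
  | zero => intro F a h; omega
  | succ k ih =>
    intro F a hk hF hab had hd hb ha hdeg hA
    have hEu : ∀ {x y : V}, s(x, y) ∈ F₁ ∪ F₂ → x ≠ y := by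
      intro x y hxy e
      refine hE s(x, y) ((union_subset h1 h2) hxy) ?_
      simpa using e
    -- removing an edge
    have rem : dg F₂ a < dg F a → (dg F a = 1 → dg F₂ a = 0) →
        ∃ F' ⊆ F₁ ∪ F₂, (∀ v ∈ A, dg F' v = 2) ∧
        (((∀ v, dg F' v = 0 ∨ dg F' v = 2) ∧ dg F' b = 2 ∧ dg F' d = 2) ∨
          (dg F' b = 1 ∧ dg F' d = 1 ∧ ∀ v, v ≠ b → v ≠ d → dg F' v = 0 ∨ dg F' v = 2)) := by
      intro hlt hz
      obtain ⟨u, hu, hu2⟩ := exists_edge hlt
      have hau : a ≠ u := hEu (hF hu)
      have hud : u ≠ d := by
        intro e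
        subst e
        rcases mem_union.1 (hF hu) with h3 | h3
        · have := dg_pos' h3
          omega
        · exact hu2 h3
      have key := dg_erase hu
      have kd := key d
      rw [if_neg (by push Not; exact ⟨Ne.symm had, Ne.symm hud⟩)] at kd
      have ka := key a
      rw [if_pos (Or.inl rfl)] at ka
      have ku := key u
      rw [if_pos (Or.inr rfl)] at ku
      have hF' : F.erase s(a, u) ⊆ F₁ ∪ F₂ := (erase_subset _ _).trans hF
      have haA : a ∈ A → dg (F.erase s(a, u)) a = 2 := by
        intro h3
        have h4 := hA2 a h3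
        rcases ha with h5 | h5
        · have := hz h5
          omega
        · omega
      have ha' : dg (F.erase s(a, u)) a = 0 ∨ dg (F.erase s(a, u)) a = 2 := by omega
      by_cases hub : u = b
      · subst hub
        refine ⟨F.erase s(a, u), hF', ?_, Or.inr ⟨by omega, by omega, ?_⟩⟩
        · intro v hv
          by_cases h3 : v = a
          · subst h3; exact haA hv
          · have h4 : v ≠ u := fun e => hbA (e ▸ hv)
            have h5 := key v
            rw [if_neg (by push Not; exact ⟨h3, h4⟩)] at h5
            have := hA v hv h3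
            omega
        · intro v hv1 hv2
          by_cases h3 : v = a
          · subst h3; exact ha'
          · have h5 := key v
            rw [if_neg (by push Not; exact ⟨h3, hv1⟩)] at h5
            have := hdeg v h3 hv2
            omega
      · refine ih (F.erase s(a, u)) u ?_ hF' hub hud (by omega) ?_ ?_ ?_ ?_
        · have h3 : symmDiff (F.erase s(a, u)) F₂ ⊂ symmDiff F F₂ := by
            rw [ssubset_iff_of_subset]
            · refine ⟨s(a, u), ?_, ?_⟩
              · rw [mem_symmDiff]; exact Or.inl ⟨hu, hu2⟩
              · rw [mem_symmDiff]; rintro (h | h)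
                · exact notMem_erase _ _ h.1
                · exact hu2 h.1
            · intro e he
              rw [mem_symmDiff] at he ⊢
              rcases he with he | he
              · exact Or.inl ⟨mem_of_mem_erase he.1, he.2⟩
              · refine Or.inr ⟨he.1, fun h4 => he.2 (mem_erase.2 ⟨?_, h4⟩)⟩
                rintro rfl
                exact hu2 he.1
          have := card_lt_card h3
          omega
        · have h5 := key b
          rw [if_neg (by push Not; exact ⟨Ne.symm hab, Ne.symm hub⟩)] at h5
          omega
        · have := hdeg u (Ne.symm hau) hud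
          omega
        · intro v hv1 hv2
          by_cases h3 : v = a
          · subst h3; exact ha'
          · have h5 := key v
            rw [if_neg (by push Not; exact ⟨h3, hv1⟩)] at h5
            have := hdeg v h3 hv2
            omega
        · intro v hv hv1
          by_cases h3 : v = a
          · subst h3; exact haA hv
          · have h5 := key v
            rw [if_neg (by push Not; exact ⟨h3, hv1⟩)] at h5
            have := hA v hv h3
            omega
    rcases ha with ha | ha
    · rcases hdeg2 a with h0 | h0
      · exact rem (by omega) (fun _ => h0)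
      · -- adding an edge
        obtain ⟨u, hu2, hu⟩ := exists_edge (F := F₂) (F' := F) (a := a) (by omega)
        have hau : a ≠ u := hEu (mem_union_right _ hu2)
        have hub : u ≠ b := by
          rintro rfl
          have := dg_pos' hu2
          omega
        have key := dg_insert hu
        have ka := key a
        rw [if_pos (Or.inl rfl)] at ka
        have ku := key u
        rw [if_pos (Or.inr rfl)] at ku
        have kb := key b
        rw [if_neg (by push Not; exact ⟨Ne.symm hab, Ne.symm hub⟩)] at kb
        have hF' : insert s(a, u) F ⊆ F₁ ∪ F₂ := insert_subset (mem_union_right _ hu2) hF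
        by_cases hud : u = d
        · subst hud
          refine ⟨insert s(a, u) F, hF', ?_, Or.inl ⟨?_, by omega, by omega⟩⟩
          · intro v hv
            by_cases h3 : v = a
            · subst h3; omega
            · have h4 : v ≠ u := fun e => hdA (e ▸ hv)
              have h5 := key v
              rw [if_neg (by push Not; exact ⟨h3, h4⟩)] at h5
              have := hA v hv h3
              omega
          · intro v
            by_cases h3 : v = a
            · subst h3; omega
            · by_cases h4 : v = u
              · subst h4; omega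
              · have h5 := key v
                rw [if_neg (by push Not; exact ⟨h3, h4⟩)] at h5
                have := hdeg v h3 h4
                omega
        · have kd := key d
          rw [if_neg (by push Not; exact ⟨Ne.symm had, Ne.symm hud⟩)] at kd
          refine ih (insert s(a, u) F) u ?_ hF' hub hud (by omega) (by omega) ?_ ?_ ?_
          · have h3 : symmDiff (insert s(a, u) F) F₂ ⊂ symmDiff F F₂ := by
              rw [ssubset_iff_of_subset]
              · refine ⟨s(a, u), ?_, ?_⟩
                · rw [mem_symmDiff]; exact Or.inr ⟨hu2, hu⟩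
                · rw [mem_symmDiff]; rintro (h | h)
                  · exact h.2 hu2
                  · exact h.2 (mem_insert_self _ _)
              · intro e he
                rw [mem_symmDiff] at he ⊢
                rcases he with he | he
                · rcases mem_insert.1 he.1 with h4 | h4
                  · exact absurd (h4 ▸ hu2) he.2
                  · exact Or.inl ⟨h4, he.2⟩
                · exact Or.inr ⟨he.1, fun h4 => he.2 (mem_insert_of_mem h4)⟩
            have := card_lt_card h3
            omega
          · have := hdeg u (Ne.symm hau) hud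
            omega
          · intro v hv1 hv2
            by_cases h3 : v = a
            · subst h3; omega
            · have h5 := key v
              rw [if_neg (by push Not; exact ⟨h3, hv1⟩)] at h5
              have := hdeg v h3 hv2
              omega
          · intro v hv hv1
            by_cases h3 : v = a
            · subst h3; omega
            · have h5 := key v
              rw [if_neg (by push Not; exact ⟨h3, hv1⟩)] at h5
              have := hA v hv h3
              omega
    · have := hdeg2 a
      exact rem (by omega) (fun h => by omega)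

/-- THE EXCHANGE LEMMA. -/
theorem exch {E : Finset (Sym2 V)} (hE : ∀ e ∈ E, ¬ e.IsDiag) {A : Finset V} {b d : V}
    (hb : Cov E (insert b A)) (hd : Cov E (insert d A))
    (p : (SimpleGraph.fromEdgeSet (E : Set (Sym2 V))).Walk b d) (hp : p.IsPath)
    (hin : ∀ r ∈ p.support, r ≠ b → r ≠ d → ¬ Cov E (insert r A)) :
    Cov E (insert b (insert d A)) := by
  obtain ⟨F₁, h1, hdeg1, hA1⟩ := hb
  obtain ⟨F₂, h2, hdeg2, hA2⟩ := hd
  have hb1 : dg F₁ b = 2 := hA1 b (mem_insert_self _ _)
  have hd2 : dg F₂ d = 2 := hA2 d (mem_insert_self _ _)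
  rcases hdeg1 d with hd1 | hd1
  swap
  · refine ⟨F₁, h1, hdeg1, fun v hv => ?_⟩
    rcases mem_insert.1 hv with rfl | hv
    · exact hb1
    · rcases mem_insert.1 hv with rfl | hv
      · exact hd1
      · exact hA1 v (mem_insert_of_mem hv)
  rcases hdeg2 b with hb2 | hb2
  swap
  · refine ⟨F₂, h2, hdeg2, fun v hv => ?_⟩
    rcases mem_insert.1 hv with rfl | hv
    · exact hb2
    · exact hA2 v hv
  have hbd : b ≠ d := by rintro rfl; omega
  have hbA : b ∉ A := fun h => by
    have := hA2 b (mem_insert_of_mem h)
    omega
  have hdA : d ∉ A := fun h => by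
    have := hA1 d (mem_insert_of_mem h)
    omega
  obtain ⟨u, hu2, hu⟩ := exists_edge (F := F₂) (F' := F₁) (a := d) (by omega)
  have hdu : d ≠ u := fun e => hE s(d, u) (h2 hu2) (by simpa using e)
  have hub : u ≠ b := by
    rintro rfl
    have := dg_pos' hu2
    omega
  have key := dg_insert hu
  have kd := key d
  rw [if_pos (Or.inl rfl)] at kd
  have ku := key u
  rw [if_pos (Or.inr rfl)] at ku
  have kb := key b
  rw [if_neg (by push Not; exact ⟨hbd, Ne.symm hub⟩)] at kb
  obtain ⟨F', hF', hA', h3⟩ := walk hE h1 h2 hbd hbA hdA hd1 hb2 hdeg2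
    (fun v hv => hA2 v (mem_insert_of_mem hv)) _ (insert s(d, u) F₁) u (Nat.lt_succ_self _)
    (insert_subset (mem_union_right _ hu2) subset_union_left) hub (Ne.symm hdu) (by omega)
    (by omega) (by have := hdeg1 u; omega)
    (by
      intro v hv1 hv2
      have h5 := key v
      rw [if_neg (by push Not; exact ⟨hv2, hv1⟩)] at h5
      have := hdeg1 v
      omega)
    (by
      intro v hv hv1
      have hv2 : v ≠ d := fun e => hdA (e ▸ hv)
      have h5 := key v
      rw [if_neg (by push Not; exact ⟨hv2, hv1⟩)] at h5
      have := hA1 v (mem_insert_of_mem hv)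
      omega)
  rcases h3 with ⟨h4, h5, h6⟩ | ⟨h4, h5, h6⟩
  · refine ⟨F', hF'.trans (union_subset h1 h2), h4, fun v hv => ?_⟩
    rcases mem_insert.1 hv with rfl | hv
    · exact h5
    · rcases mem_insert.1 hv with rfl | hv
      · exact h6
      · exact hA' v hv
  · obtain ⟨F'', hF'', h7, h8, h9, h10⟩ := addPath p hp F' (hF'.trans (union_subset h1 h2)) hbd
      (by
        intro h
        rcases mem_union.1 (hF' h) with h | h
        · have := dg_pos' h
          omega
        · have := dg_pos h
          omega) h4 h5 h6
      (by
        intro r hr hr1 hr2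
        have hn := hin r hr hr1 hr2
        refine dg_union_zero hF' ?_ ?_
        · rcases hdeg1 r with h | h
          · exact h
          · refine absurd ⟨F₁, h1, hdeg1, fun v hv => ?_⟩ hn
            rcases mem_insert.1 hv with rfl | hv
            · exact h
            · exact hA1 v (mem_insert_of_mem hv)
        · rcases hdeg2 r with h | h
          · exact h
          · refine absurd ⟨F₂, h2, hdeg2, fun v hv => ?_⟩ hn
            rcases mem_insert.1 hv with rfl | hv
            · exact h
            · exact hA2 v (mem_insert_of_mem hv))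
    refine ⟨F'', hF'', h7, fun v hv => ?_⟩
    rcases mem_insert.1 hv with rfl | hv
    · exact h8
    · rcases mem_insert.1 hv with rfl | hv
      · exact h9
      · exact h10 v (hA' v hv)

end H85TF
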