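import Pool.Agent.Lib.H85TF.P1
import Pool.Agent.Lib.H98M.M0

/-!
# H85TF, file P2: the exchange lemma inside a connected set; every vertex is on a cycle
-/

set_option autoImplicit false

namespace H85TF

open Finset H98M

variable {V : Type*} [DecidableEq V]

theorem cov_sub {E : Finset (Sym2 V)} {A B : Finset V} (h : A ⊆ B) (hB : Cov E B) : Cov E A := by
  obtain ⟨F, h1, h2, h3⟩ := hB
  exact ⟨F, h1, h2, fun v hv => h3 v (h hv)⟩

theorem cov_edges {E E' : Finset (Sym2 V)} {A : Finset V} (h : E ⊆ E') (hA : Cov E A) :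
    Cov E' A := by
  obtain ⟨F, h1, h2, h3⟩ := hA
  exact ⟨F, h1.trans h, h2, h3⟩

theorem cov_empty (E : Finset (Sym2 V)) : Cov E ∅ :=
  ⟨∅, empty_subset _, fun v => Or.inl (by simp [dg]), fun v hv => absurd hv (notMem_empty v)⟩

/-- A path inside a connected set. -/
theorem path_of_not_disc {E : Finset (Sym2 V)} {U : Finset V} (h : ¬ Disc U E) {b d : V}
    (hb : b ∈ U) (hd : d ∈ U) :
    ∃ p : (SimpleGraph.fromEdgeSet (E : Set (Sym2 V))).Walk b d,
      p.IsPath ∧ ∀ r ∈ p.support, r ∈ U := by
  classical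
  set G := SimpleGraph.fromEdgeSet (E : Set (Sym2 V)) with hG
  set C := U.filter fun x => ∃ p : G.Walk b x, ∀ r ∈ p.support, r ∈ U with hC
  have hbC : b ∈ C := mem_filter.2 ⟨hb, SimpleGraph.Walk.nil, by simpa using hb⟩
  by_cases hdC : d ∈ C
  · obtain ⟨-, p, hp⟩ := mem_filter.1 hdC
    exact ⟨p.bypass, p.bypass_isPath, fun r hr => hp r (p.support_bypass_subset_support hr)⟩
  · exfalso
    refine h ⟨C, U \ C, ⟨b, hbC⟩, ⟨d, mem_sdiff.2 ⟨hd, hdC⟩⟩, disjoint_sdiff,
      union_sdiff_of_subset (filter_subset _ _), ?_⟩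
    intro x hx y hy hxy
    rw [mem_sdiff] at hy
    obtain ⟨hxU, p, hp⟩ := mem_filter.1 hx
    have hne : x ≠ y := fun e => hy.2 (e ▸ hx)
    have hadj : G.Adj x y := by
      rw [hG, SimpleGraph.fromEdgeSet_adj]
      exact ⟨by exact_mod_cast hxy, hne⟩
    refine hy.2 (mem_filter.2 ⟨hy.1, p.concat hadj, fun r hr => ?_⟩)
    rw [SimpleGraph.Walk.support_concat] at hr
    have hr' : r ∈ p.support ∨ r = y := by simpa using hr
    rcases hr' with h1 | h1
    · exact hp r h1
    · rw [h1]
      exact hy.1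

/-- THE EXCHANGE LEMMA, with a connected set in place of the path. -/
theorem exch_set {E : Finset (Sym2 V)} (hE : ∀ e ∈ E, ¬ e.IsDiag) {A U : Finset V} {b d : V}
    (hb : Cov E (insert b A)) (hd : Cov E (insert d A)) (hbU : b ∈ U) (hdU : d ∈ U)
    (hU : ¬ Disc U E) (hin : ∀ u ∈ U, u ≠ b → u ≠ d → ¬ Cov E (insert u A)) :
    Cov E (insert b (insert d A)) := by
  obtain ⟨p, hp, hpU⟩ := path_of_not_disc hU hbU hdU
  exact exch hE hb hd p hp fun r hr => hin r (hpU r hr)

/-- Every vertex of a 2-connected graph with at least three vertices is on a cycle. -/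
theorem cov_vertex [Fintype V] {E : Finset (Sym2 V)} (hE : ∀ e ∈ E, ¬ e.IsDiag)
    (h3 : 3 ≤ Fintype.card V) (hc : ¬ Disc univ E) (hcut : ∀ z, ¬ Disc (univ.erase z) E) (v : V) :
    Cov E {v} := by
  classical
  obtain ⟨u, hu⟩ : ∃ u, s(v, u) ∈ E := by
    by_contra hcon
    push Not at hcon
    refine hc ⟨{v}, univ.erase v, singleton_nonempty v, ?_, ?_, ?_, ?_⟩
    · rw [← card_pos, card_erase_of_mem (mem_univ _), card_univ]
      omega
    · simp
    · ext x
      simp
    · intro x hx y _
      rw [mem_singleton.1 hx]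
      exact hcon y
  have huv : v ≠ u := fun e => hE _ hu (by simpa using e)
  obtain ⟨w, hwu, hw⟩ : ∃ w, w ≠ u ∧ s(v, w) ∈ E := by
    by_contra hcon
    push Not at hcon
    refine hcut u ⟨{v}, (univ.erase u).erase v, singleton_nonempty v, ?_, ?_, ?_, ?_⟩
    · rw [← card_pos, card_erase_of_mem (mem_erase.2 ⟨huv, mem_univ _⟩),
        card_erase_of_mem (mem_univ _), card_univ]
      omega
    · simp
    · ext x
      simp only [mem_union, mem_singleton, mem_erase, mem_univ, and_true]
      constructor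
      · rintro (rfl | h)
        · exact huv
        · exact h.2
      · intro h
        by_cases hx : x = v
        · exact Or.inl hx
        · exact Or.inr ⟨hx, h⟩
    · intro x hx y hy
      rw [mem_singleton.1 hx]
      rw [mem_erase, mem_erase] at hy
      exact hcon y hy.2.1
  have hwv : v ≠ w := fun e => hE _ hw (by simpa using e)
  obtain ⟨p, hp, hpU⟩ := path_of_not_disc (hcut v) (b := u) (d := w)
    (mem_erase.2 ⟨Ne.symm huv, mem_univ _⟩) (mem_erase.2 ⟨Ne.symm hwv, mem_univ _⟩)
  have hn1 : s(v, w) ∉ (∅ : Finset (Sym2 V)) := notMem_empty _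
  have hn2 : s(v, u) ∉ insert s(v, w) (∅ : Finset (Sym2 V)) := by
    intro h
    rcases mem_insert.1 h with h | h
    · rw [Sym2.eq_iff] at h
      rcases h with h | h
      · exact hwu h.2.symm
      · exact huv h.2.symm
    · exact notMem_empty _ h
  have key : ∀ x, dg (insert s(v, u) (insert s(v, w) (∅ : Finset (Sym2 V)))) x =
      (if x = v ∨ x = w then 1 else 0) + if x = v ∨ x = u then 1 else 0 := by
    intro x
    rw [dg_insert hn2, dg_insert hn1]
    simp [dg]
  have hv2 : dg (insert s(v, u) (insert s(v, w) (∅ : Finset (Sym2 V)))) v = 2 := by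
    rw [key]; simp
  obtain ⟨F', h1, h2, h4, h5, h6⟩ := addPath p hp (insert s(v, u) (insert s(v, w) ∅))
    (insert_subset hu (insert_subset hw (empty_subset _))) (Ne.symm hwu)
    (by
      intro h
      rcases mem_insert.1 h with h | h
      · rw [Sym2.eq_iff] at h
        rcases h with h | h
        · exact huv h.1.symm
        · exact hwv h.2.symm
      · rcases mem_insert.1 h with h | h
        · rw [Sym2.eq_iff] at h
          rcases h with h | h
          · exact huv h.1.symm
          · exact hwu h.1.symm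
        · exact notMem_empty _ h)
    (by rw [key]; simp [Ne.symm huv, Ne.symm hwu])
    (by rw [key]; simp [Ne.symm hwv, hwu])
    (by
      intro x hx1 hx2
      rw [key]
      by_cases hx : x = v
      · subst hx; simp
      · simp [hx, hx1, hx2])
    (by
      intro r hr hr1 hr2
      have hrv : r ≠ v := (mem_erase.1 (hpU r hr)).1
      rw [key]
      simp [hrv, hr1, hr2])
  refine ⟨F', h1, h2, fun x hx => ?_⟩
  rw [mem_singleton.1 hx]
  exact h6 v hv2

end H85TF
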