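import Pool.Agent.Lib.H85TF.P2
import Pool.Agent.Lib.H96TF.X
import Pool.Agent.Lib.H30D.C4
import Pool.Agent.Lib.H30F.BP

/-!
# H85TF, file Abs: the plane 2-factor, abstract form
-/

set_option autoImplicit false

namespace H85TF

open Finset H98P H98Z H98M H63F H30F

variable {V : Type*} [Fintype V] [DecidableEq V]

theorem disc_anti {W : Finset V} {G G' : Finset (Sym2 V)} (h : G ⊆ G') (hD : Disc W G') :
    Disc W G := by
  obtain ⟨C, D, h1, h2, h3, h4, h5⟩ := hD
  exact ⟨C, D, h1, h2, h3, h4, fun x hx y hy hxy => h5 x hx y hy (h hxy)⟩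

theorem not_diag_of_LW {G : Finset (Sym2 V)} (h : G ⊆ LW univ) : ∀ e ∈ G, ¬ e.IsDiag := by
  intro e he
  have h1 := h he
  unfold LW at h1
  exact (mem_filter.1 h1).2

/-- THE PLANE 2-FACTOR, abstract form. -/
theorem plane_two_factor {cross : Sym2 V → Sym2 V → Prop} (hsymm : ∀ e f, cross e f → cross f e)
    (hHD : ∀ W, HD cross W) (h3 : 3 ≤ Fintype.card V) :
    ∃ G : Finset (Sym2 V), G ⊆ LW univ ∧ Plane cross G ∧ ¬ Disc univ G ∧
      (∀ z, ¬ Disc (univ.erase z) G) ∧ Cov G univ := by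
  have hV : ∃ x y : V, x ≠ y := by
    have h1 : 1 < Fintype.card V := by omega
    obtain ⟨x, y, h⟩ := Fintype.exists_pair_of_one_lt_card h1
    exact ⟨x, y, h⟩
  obtain ⟨G, -, hGL, hGp, hac⟩ := functor hsymm hHD hV
    (fun G W => Disc W G ∧ ((Disc univ G ∨ ∃ z, Disc (univ.erase z) G) ∨ ¬ Cov G W))
    (by
      rintro G G' hGG - - - W ⟨h1, h2⟩
      refine ⟨disc_anti hGG h1, ?_⟩
      rcases h2 with (h2 | ⟨z, h2⟩) | h2
      · exact Or.inl (Or.inl (disc_anti hGG h2))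
      · exact Or.inl (Or.inr ⟨z, disc_anti hGG h2⟩)
      · exact Or.inr fun h => h2 (cov_edges hGG h))
    (fun G W _ _ _ h => h.1)
  have hE := not_diag_of_LW hGL
  by_cases hd : Disc univ G ∨ ∃ z, Disc (univ.erase z) G
  · refine absurd ?_ hac
    have h1 : (fun W => Disc W G ∧ ((Disc univ G ∨ ∃ z, Disc (univ.erase z) G) ∨ ¬ Cov G W)) =
        fun W : Finset V => Disc W G := by
      funext W
      exact propext ⟨fun h => h.1, fun h => ⟨h, Or.inl hd⟩⟩
    rw [h1]
    exact H30D.ac_disc G hd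
  · have hd' := hd
    push Not at hd'
    refine ⟨G, hGL, hGp, hd'.1, hd'.2, ?_⟩
    by_contra hcov
    refine hac ?_
    have h1 : (fun W => Disc W G ∧ ((Disc univ G ∨ ∃ z, Disc (univ.erase z) G) ∨ ¬ Cov G W)) =
        fun W : Finset V => ¬ Cov G W ∧ Disc W G := by
      funext W
      refine propext ⟨fun h => ⟨?_, h.1⟩, fun h => ⟨h.2, Or.inr h.1⟩⟩
      rcases h.2 with h2 | h2
      · exact absurd h2 hd
      · exact h2
    rw [h1]
    exact H96TF.ac_X G (Cov G) (fun A B hAB hB => cov_sub hAB hB) (cov_empty G)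
      (cov_vertex hE h3 hd'.1 hd'.2)
      (fun A b d U hb hd hbU hdU hU hin => exch_set hE hb hd hbU hdU hU hin) hcov

end H85TF
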