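import Pool.Agent.Lib.H98TF.Draw
import Pool.Agent.Lib.H63T.Trim

/-!
# H85TF, file Draw: from 2-connected plane edge sets to simple drawings, with at most `2n - 3` edges
-/

set_option autoImplicit false

open H53P SimpleDraw

namespace H85TF

open Finset H98P H98Z H98M H63F H30F H63L H97W

/-- A plane 2-connected edge set `G` with a subset `F` of degrees at most two gives a plane 2-connected subdrawing with
at most `2n - 3` edges which contains `F`. -/
theorem toDrawing {n : ℕ} (hn : 3 ≤ n) (D : SimpleDrawing n) {G F : Finset (Sym2 (Fin n))}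
    (hGL : G ⊆ LW univ) (hGP : Plane (H53P.crossT (H53P.table D)) G) (hT : ¬ Disc univ G)
    (hT2 : ∀ z, ¬ Disc (univ.erase z) G) (hF : F ⊆ G) (hdeg : ∀ v, dg F v ≤ 2) :
    ∃ H : SimpleGraph (Fin n), D.Plane H ∧ H.Connected ∧ (∀ v, (H.induce {w | w ≠ v}).Connected) ∧
      H.edgeSet.ncard ≤ 2 * n - 3 ∧ gr F ≤ H ∧ ∀ v, ((gr F).neighborSet v).ncard = dg F v := by
  have hdiag := not_diag_of_LW hGL
  obtain ⟨H, h1, h2, h3, h4, h5⟩ := H63T.trim G F hdiag hF hdeg hT hT2
    (by rw [Fintype.card_fin]; omega)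
  rw [Fintype.card_fin] at h5
  refine ⟨gr H, plane_of D (plane_sub h2 hGP), ?_, fun v => ?_, ?_, H98TF.gr_mono h1,
    fun v => H98TF.degree_gr (fun e he => hdiag e (hF he)) v⟩
  · have h6 := H98TF.induce_connected ⟨⟨0, by omega⟩, mem_univ _⟩ h3
    have h7 : {v : Fin n | v ∈ (univ : Finset (Fin n))} = Set.univ := by
      ext v
      simp
    rw [h7] at h6
    exact (SimpleGraph.induceUnivIso (gr H)).connected_iff.1 h6
  · have h6 : (univ.erase v).Nonempty := by
      rw [← card_pos, card_erase_of_mem (mem_univ _), card_univ, Fintype.card_fin]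
      omega
    have h7 := H98TF.induce_connected h6 (h4 v)
    have h8 : {w : Fin n | w ∈ univ.erase v} = {w | w ≠ v} := by
      ext w
      simp
    rw [h8] at h7
    exact h7
  · have h6 : (gr H).edgeSet ⊆ (H : Set (Sym2 (Fin n))) := by
      intro e he
      have h7 : e ∈ (SimpleGraph.fromEdgeSet (H : Set (Sym2 (Fin n)))).edgeSet := he
      rw [SimpleGraph.edgeSet_fromEdgeSet] at h7
      exact h7.1
    have h7 := Set.ncard_le_ncard h6 (Finset.finite_toSet H)
    rw [Set.ncard_coe_finset] at h7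
    omega

/-- The plane 2-factor for simple drawings. -/
theorem twoFactor_drawing {n : ℕ} (hn : 3 ≤ n) (D : SimpleDrawing n) :
    ∃ G : SimpleGraph (Fin n), D.Plane G ∧ G.Connected ∧ (∀ v, (G.induce {w | w ≠ v}).Connected) ∧
      G.edgeSet.ncard ≤ 2 * n - 3 ∧ ∃ F ≤ G, ∀ v, (F.neighborSet v).ncard = 2 := by
  obtain ⟨G, hGL, hGP, hT, hT2, F, hF, h1, h2⟩ := plane_two_factor
    (H53P.crossT_symm (H53P.table D)) (H98W.hd_table (H53P.table D)) (by rw [Fintype.card_fin]; exact hn)
  have h3 : ∀ v, dg F v = 2 := fun v => h2 v (mem_univ _)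
  obtain ⟨H, h4, h5, h6, h7, h8, h9⟩ := toDrawing hn D hGL hGP hT hT2 hF fun v => (h3 v).le
  exact ⟨H, h4, h5, h6, h7, gr F, h8, fun v => (h9 v).trans (h3 v)⟩

end H85TF
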