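import Pool.Agent.Lib.H30D.C4
import Pool.Agent.Lib.H70H.K1

/-!
# H85TF, file DN: the sets which lie in a disconnected set, for a graph with few edges (Lemma D)

Lemma D (helper33, helper63): for a graph `G` with `m` edges on `n ≥ 2` vertices the complex of the sets `M` which lie in a
disconnected set is acyclic in the sense of `ACk k` for `k + m + 4 ≤ 2n`.
-/

set_option autoImplicit false
set_option linter.unusedSectionVars false

namespace H85TF

open Finset H98P H98Z H98M H63F H30F H30D H70H

variable {V : Type*} [Fintype V] [DecidableEq V]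

/-- The subsets `M` of `P` for which `M ∪ Z` lies in a disconnected set. -/
def Kc (G : Finset (Sym2 V)) (P Z M : Finset V) : Prop := M ⊆ P ∧ ∃ W, M ∪ Z ⊆ W ∧ Disc W G

theorem kc_dn {G : Finset (Sym2 V)} {P Z : Finset V} : Dn (Kc G P Z) := by
  rintro s t hst ⟨h1, W, h2, h3⟩
  exact ⟨hst.trans h1, W, (union_subset_union hst Subset.rfl).trans h2, h3⟩

/-- adjacency -/
def aa (G : Finset (Sym2 V)) (x y : V) : ℕ := if s(x, y) ∈ G then 1 else 0

theorem aa_comm (G : Finset (Sym2 V)) (x y : V) : aa G x y = aa G y x := by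
  unfold aa
  rw [Sym2.eq_swap]

theorem aa_self {G : Finset (Sym2 V)} (hG : ∀ e ∈ G, ¬ e.IsDiag) (x : V) : aa G x x = 0 := by
  unfold aa
  rw [if_neg]
  intro h
  exact hG _ h (by simp)

/-- number of adjacent pairs -/
def SS (G : Finset (Sym2 V)) (A B : Finset V) : ℕ := ∑ x ∈ A, ∑ y ∈ B, aa G x y

theorem SS_comm (G : Finset (Sym2 V)) (A B : Finset V) : SS G A B = SS G B A := by
  unfold SS
  rw [sum_comm]
  exact sum_congr rfl fun x _ => sum_congr rfl fun y _ => aa_comm G y x

theorem SS_erase_left {G : Finset (Sym2 V)} {A B : Finset V} {y : V} (hy : y ∈ A) :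
    SS G A B = SS G (A.erase y) B + ∑ z ∈ B, aa G y z := by
  unfold SS
  rw [← sum_erase_add A _ hy]

theorem SS_erase_right {G : Finset (Sym2 V)} {A B : Finset V} {y : V} (hy : y ∈ B) :
    SS G A B = SS G A (B.erase y) + ∑ z ∈ A, aa G y z := by
  rw [SS_comm, SS_erase_left hy, SS_comm G (B.erase y) A]

theorem sum_erase_aa {G : Finset (Sym2 V)} (hG : ∀ e ∈ G, ¬ e.IsDiag) {P : Finset V} {y : V} :
    ∑ z ∈ P.erase y, aa G y z = ∑ z ∈ P, aa G y z := by
  by_cases hy : y ∈ P
  · rw [← sum_erase_add P _ hy, aa_self hG, add_zero]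
  · rw [erase_eq_of_notMem hy]

theorem SS_self {G : Finset (Sym2 V)} (hG : ∀ e ∈ G, ¬ e.IsDiag) {P : Finset V} {y : V} (hy : y ∈ P) :
    SS G P P = SS G (P.erase y) (P.erase y) + 2 * ∑ z ∈ P, aa G y z := by
  rw [SS_erase_left hy, SS_erase_right (A := P.erase y) hy, sum_erase_aa hG]
  ring

theorem SS_mono_left {G : Finset (Sym2 V)} {A A' B : Finset V} (h : A ⊆ A') : SS G A B ≤ SS G A' B := by
  unfold SS
  exact sum_le_sum_of_subset h

theorem card_filter_aa (G : Finset (Sym2 V)) (A : Finset V) (y : V) :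
    (A.filter fun x => s(y, x) ∈ G).card = ∑ z ∈ A, aa G y z := by
  rw [card_filter]
  rfl

theorem card_filter_not_aa (G : Finset (Sym2 V)) (A : Finset V) (y : V) :
    (A.filter fun x => s(y, x) ∉ G).card + ∑ z ∈ A, aa G y z = A.card := by
  rw [← card_filter_aa, add_comm]
  exact card_filter_add_card_filter_not (s := A) (fun x => s(y, x) ∈ G)

theorem ack_zero_of {E : Type*} [Fintype E] [DecidableEq E] {K K' : Finset E → Prop}
    (hd : ∀ s, K' s → K s) (h0 : K ∅ → K' ∅) (h : ACk 0 K') : ACk 0 K := by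
  intro z hz hb
  obtain ⟨c, h1, h2⟩ := h z (fun s hs => by
    have h3 := hz s hs
    have h4 : s = ∅ := card_eq_zero.1 (Nat.le_zero.1 h3.2)
    subst h4
    exact ⟨h0 h3.1, h3.2⟩) hb
  exact ⟨c, fun s hs => ⟨hd s (h1 s hs).1, (h1 s hs).2⟩, h2⟩

theorem ack_full {G : Finset (Sym2 V)} {P Z : Finset V} (k : ℕ) (hP : P.Nonempty)
    (h : ∀ M ⊆ P, ∃ W, M ∪ Z ⊆ W ∧ Disc W G) : ACk k (Kc G P Z) :=
  ack_of_ac k (ac_congr (fun s => ⟨fun h1 => ⟨h1, h s h1⟩, fun h1 => h1.1⟩) (ac_simplex hP))

/-- one vertex against a set -/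
theorem disc_insert {G : Finset (Sym2 V)} {U : Finset V} {x : V} (hU : U.Nonempty) (hx : x ∉ U)
    (h : ∀ u ∈ U, s(x, u) ∉ G) : Disc (insert x U) G :=
  ⟨{x}, U, singleton_nonempty x, hU, disjoint_singleton_left.2 hx, by rw [← insert_eq],
    fun a ha b hb => by rw [mem_singleton.1 ha]; exact h b hb⟩

theorem not_disc_insert {G : Finset (Sym2 V)} {Z : Finset V} {y z : V} (hn : ¬ Disc Z G)
    (hz : z ∈ Z) (hzy : s(z, y) ∈ G) : ¬ Disc (insert y Z) G := by
  intro hD
  obtain ⟨C, D, hDn, hCD, hW, hZC, h⟩ := disc_part ⟨z, hz⟩ hn (subset_insert y Z) hD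
  obtain ⟨t, ht⟩ := hDn
  have h1 : t ∈ insert y Z := hW ▸ mem_union_right _ ht
  rcases mem_insert.1 h1 with h2 | h2
  · subst h2
    exact h z (hZC hz) t ht hzy
  · exact disjoint_left.1 hCD (hZC h2) ht

/-- (D0) -/
theorem ac_dom {G : Finset (Sym2 V)} {P Z : Finset V} (hPZ : Disjoint P Z) (hZ : Z.Nonempty)
    (hn : ¬ Disc Z G) (hdom : ∀ x, x ∉ P → x ∉ Z → ∃ z ∈ Z, s(z, x) ∈ G) : AC (Kc G P Z) := by
  refine ac_congr (K := Rr G (P ∪ Z) Z) (fun M => ?_) (ac_R _ (P ∪ Z) Z le_rfl subset_union_right hZ hn)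
  constructor
  · rintro ⟨h1, W, h2, -, h4⟩
    refine ⟨fun x hx => ?_, W, h2, h4⟩
    have h5 := h1 hx
    rw [mem_sdiff, mem_union] at h5
    rcases h5.1 with h6 | h6
    · exact h6
    · exact absurd h6 h5.2
  · rintro ⟨h1, W, h2, h4⟩
    refine ⟨fun x hx => ?_, W ∩ (P ∪ Z), ?_, inter_subset_right, ?_⟩
    · rw [mem_sdiff, mem_union]
      exact ⟨Or.inl (h1 hx), disjoint_left.1 hPZ (h1 hx)⟩
    · exact subset_inter h2 (union_subset_union h1 Subset.rfl)
    · obtain ⟨C, D, hDn, hCD, hW, hZC, h⟩ := disc_part hZ hn (subset_union_right.trans h2) h4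
      refine ⟨C ∩ (P ∪ Z), D ∩ (P ∪ Z), ?_, ?_, ?_, ?_, ?_⟩
      · obtain ⟨z, hz⟩ := hZ
        exact ⟨z, mem_inter.2 ⟨hZC hz, mem_union_right _ hz⟩⟩
      · obtain ⟨t, ht⟩ := hDn
        have h5 : t ∉ Z := fun h6 => disjoint_left.1 hCD (hZC h6) ht
        have h6 : t ∈ P := by
          by_contra h6
          obtain ⟨z, hz, hzt⟩ := hdom t h6 h5
          exact h z (hZC hz) t ht hzt
        exact ⟨t, mem_inter.2 ⟨ht, mem_union_left _ h6⟩⟩
      · exact disjoint_of_subset_left inter_subset_left (disjoint_of_subset_right inter_subset_left hCD)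
      · rw [← union_inter_distrib_right, hW]
      · exact fun x hx y hy => h x (mem_inter.1 hx).1 y (mem_inter.1 hy).1

/-- the vertices of `P` with a neighbour in `Z` -/
def NZ (G : Finset (Sym2 V)) (P Z : Finset V) : Finset V := P.filter fun y => ∃ z ∈ Z, s(z, y) ∈ G

/-- the vertices outside `P` and `Z` without a neighbour in `Z` -/
def Jf (G : Finset (Sym2 V)) (P Z : Finset V) : Finset V :=
  univ.filter fun x => x ∉ P ∧ x ∉ Z ∧ ∀ z ∈ Z, s(z, x) ∉ G

theorem kc_del {G : Finset (Sym2 V)} {P Z : Finset V} {y : V} (M : Finset V) :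
    (Kc G P Z M ∧ y ∉ M) ↔ Kc G (P.erase y) Z M := by
  constructor
  · rintro ⟨⟨h1, h2⟩, h3⟩
    exact ⟨fun x hx => mem_erase.2 ⟨fun e => h3 (e ▸ hx), h1 hx⟩, h2⟩
  · rintro ⟨h1, h2⟩
    exact ⟨⟨h1.trans (erase_subset _ _), h2⟩, fun h3 => (mem_erase.1 (h1 h3)).1 rfl⟩

theorem kc_link {G : Finset (Sym2 V)} {P Z : Finset V} {y : V} (hy : y ∈ P) (M : Finset V) :
    (Kc G P Z (insert y M) ∧ y ∉ M) ↔ Kc G (P.erase y) (insert y Z) M := by
  have e1 : insert y M ∪ Z = M ∪ insert y Z := by
    rw [insert_union, union_insert]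
  constructor
  · rintro ⟨⟨h1, h2⟩, h3⟩
    refine ⟨fun x hx => mem_erase.2 ⟨fun e => h3 (e ▸ hx), h1 (mem_insert_of_mem hx)⟩, ?_⟩
    rwa [← e1]
  · rintro ⟨h1, h2⟩
    refine ⟨⟨insert_subset hy (h1.trans (erase_subset _ _)), ?_⟩, fun h3 => (mem_erase.1 (h1 h3)).1 rfl⟩
    rwa [e1]

/-- (D1) -/
theorem d1 {G : Finset (Sym2 V)} (hG : ∀ e ∈ G, ¬ e.IsDiag) : ∀ (n k : ℕ) (P Z : Finset V),
    P.card = n → Disjoint P Z → P.Nonempty → Z.Nonempty → ¬ Disc Z G → (Jf G P Z).Nonempty →
    2 * k + SS G P P + 2 * (NZ G P Z).card + 2 * SS G (Jf G P Z) P + 4 ≤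
      4 * P.card + 2 * (Jf G P Z).card → ACk k (Kc G P Z) := by
  intro n
  induction n with
  | zero =>
    intro k P Z hc _ hP
    exact absurd hc (card_pos.2 hP).ne'
  | succ n ih =>
    intro k P Z hc hPZ hP hZ hn hJ hb
    have hJm : ∀ x, x ∈ Jf G P Z ↔ x ∉ P ∧ x ∉ Z ∧ ∀ z ∈ Z, s(z, x) ∉ G := fun x => by
      unfold Jf
      rw [mem_filter]
      exact ⟨fun h => h.2, fun h => ⟨mem_univ _, h⟩⟩
    by_cases c1 : ∃ x ∈ Jf G P Z, ∀ y ∈ P, s(x, y) ∉ G
    · obtain ⟨x, hx, hxP⟩ := c1
      have hx' := (hJm x).1 hx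
      refine ack_full k hP fun M hM => ⟨insert x (M ∪ Z), subset_insert _ _, disc_insert ?_ ?_ ?_⟩
      · obtain ⟨z, hz⟩ := hZ
        exact ⟨z, mem_union_right _ hz⟩
      · intro h
        rcases mem_union.1 h with h | h
        · exact hx'.1 (hM h)
        · exact hx'.2.1 h
      · intro u hu
        rcases mem_union.1 hu with h | h
        · exact hxP u (hM h)
        · rw [Sym2.eq_swap]
          exact hx'.2.2 u h
    by_cases c2 : ∃ y ∈ NZ G P Z, (∃ t ∈ P, s(y, t) ∈ G) ∨ ∃ t ∈ Jf G P Z, s(y, t) ∈ G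
    swap
    · push Not at c2
      refine ack_full k hP fun M hM => ?_
      by_cases c3 : ∀ m ∈ M, ∃ z ∈ Z, s(z, m) ∈ G
      · obtain ⟨x, hx⟩ := hJ
        have hx' := (hJm x).1 hx
        refine ⟨insert x (M ∪ Z), subset_insert _ _, disc_insert ?_ ?_ ?_⟩
        · obtain ⟨z, hz⟩ := hZ
          exact ⟨z, mem_union_right _ hz⟩
        · intro h
          rcases mem_union.1 h with h | h
          · exact hx'.1 (hM h)
          · exact hx'.2.1 h
        · intro u hu
          rcases mem_union.1 hu with h | h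
          · rw [Sym2.eq_swap]
            exact (c2 u (mem_filter.2 ⟨hM h, c3 u h⟩)).2 x hx
          · rw [Sym2.eq_swap]
            exact hx'.2.2 u h
      · push Not at c3
        obtain ⟨m, hm, hmZ⟩ := c3
        refine ⟨M ∪ Z, Subset.rfl, M.filter (fun y => ¬ ∃ z ∈ Z, s(z, y) ∈ G),
          M.filter (fun y => ∃ z ∈ Z, s(z, y) ∈ G) ∪ Z, ⟨m, mem_filter.2 ⟨hm, ?_⟩⟩, ?_, ?_, ?_, ?_⟩
        · push Not
          exact hmZ
        · obtain ⟨z, hz⟩ := hZ
          exact ⟨z, mem_union_right _ hz⟩
        · rw [disjoint_left]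
          intro x hx hx2
          rw [mem_filter] at hx
          rcases mem_union.1 hx2 with h | h
          · exact hx.2 (mem_filter.1 h).2
          · exact disjoint_left.1 hPZ (hM hx.1) h
        · ext x
          by_cases h : ∃ z ∈ Z, s(z, x) ∈ G
          · simp [h]
          · simp only [mem_union, mem_filter, h, not_false_eq_true, and_true, and_false,
              false_or]
        · intro x hx y hy hxy
          rw [mem_filter] at hx
          rcases mem_union.1 hy with h | h
          · rw [mem_filter] at h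
            rw [Sym2.eq_swap] at hxy
            exact (c2 y (mem_filter.2 ⟨hM h.1, h.2⟩)).1 x (hM hx.1) hxy
          · rw [Sym2.eq_swap] at hxy
            exact hx.2 ⟨y, h, hxy⟩
    obtain ⟨y, hy, hyt⟩ := c2
    have hyP : y ∈ P := (mem_filter.1 hy).1
    obtain ⟨z, hz, hzy⟩ := (mem_filter.1 hy).2
    have hyZ : y ∉ Z := disjoint_left.1 hPZ hyP
    -- numbers
    have e1 := SS_self hG hyP
    have e2 := SS_erase_right (G := G) (A := Jf G P Z) hyP
    have e3 : 1 ≤ ∑ t ∈ P, aa G y t + ∑ t ∈ Jf G P Z, aa G y t := by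
      rcases hyt with ⟨t, ht, h⟩ | ⟨t, ht, h⟩
      · have h1 : aa G y t ≤ ∑ t ∈ P, aa G y t := single_le_sum (fun _ _ => Nat.zero_le _) ht
        have h2 : aa G y t = 1 := if_pos h
        omega
      · have h1 : aa G y t ≤ ∑ t ∈ Jf G P Z, aa G y t := single_le_sum (fun _ _ => Nat.zero_le _) ht
        have h2 : aa G y t = 1 := if_pos h
        omega
    have e4 : (NZ G (P.erase y) Z).card + 1 = (NZ G P Z).card := by
      have h1 : NZ G (P.erase y) Z = (NZ G P Z).erase y := by
        unfold NZ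
        rw [filter_erase]
      rw [h1, card_erase_of_mem hy]
      have := card_pos.2 ⟨y, hy⟩
      omega
    have e5 : (P.erase y).card = n := by
      rw [card_erase_of_mem hyP]
      omega
    have e6 : Jf G (P.erase y) Z = Jf G P Z := by
      ext x
      unfold Jf
      rw [mem_filter, mem_filter]
      constructor
      · rintro ⟨h0, h1, h2, h3⟩
        refine ⟨h0, fun h4 => h1 (mem_erase.2 ⟨?_, h4⟩), h2, h3⟩
        rintro rfl
        exact h3 z hz hzy
      · rintro ⟨h0, h1, h2, h3⟩
        exact ⟨h0, fun h4 => h1 (mem_of_mem_erase h4), h2, h3⟩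
    have hP' : (P.erase y).Nonempty := by
      rw [nonempty_iff_ne_empty]
      intro h0
      have h1 : P = {y} := by
        ext x
        rw [mem_singleton]
        constructor
        · intro hx
          by_contra hne
          have : x ∈ P.erase y := mem_erase.2 ⟨hne, hx⟩
          rw [h0] at this
          exact notMem_empty _ this
        · rintro rfl
          exact hyP
      have h2 : ∑ t ∈ Jf G P Z, aa G y t = (Jf G P Z).card := by
        rw [card_eq_sum_ones]
        refine sum_congr rfl fun x hx => if_pos ?_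
        push Not at c1
        obtain ⟨w, hw, hxw⟩ := c1 x hx
        rw [h1, mem_singleton] at hw
        rw [Sym2.eq_swap, ← hw]
        exact hxw
      have h3 : P.card = 1 := by rw [h1]; simp
      omega
    have hdel : ∀ k, (k ≤ 0 ∨ True) → 2 * k + SS G P P + 2 * (NZ G P Z).card + 2 * SS G (Jf G P Z) P + 4 ≤
        4 * P.card + 2 * (Jf G P Z).card → ACk k (Kc G (P.erase y) Z) := by
      intro k _ hb
      refine ih k (P.erase y) Z e5 (disjoint_of_subset_left (erase_subset _ _) hPZ) hP' hZ hn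
        (by rw [e6]; exact hJ) ?_
      rw [e6]
      omega
    rcases k with _ | k
    · refine ack_zero_of (K' := Kc G (P.erase y) Z) (fun s hs => (kc_del s).2 hs |>.1)
        (fun h => (kc_del ∅).1 ⟨h, notMem_empty y⟩) (hdel 0 (Or.inr trivial) hb)
    · refine ack_add kc_dn y (ack_congr (fun s => (kc_del s).symm) (hdel (k + 1) (Or.inr trivial) hb)) ?_
      refine ack_congr (fun s => (kc_link hyP s).symm) ?_
      have g1 : Disjoint (P.erase y) (insert y Z) := by
        rw [disjoint_left]
        intro x hx hx2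
        rw [mem_erase] at hx
        rcases mem_insert.1 hx2 with h | h
        · exact hx.1 h
        · exact disjoint_left.1 hPZ hx.2 h
      have g2 : ¬ Disc (insert y Z) G := not_disc_insert hn hz hzy
      have g3 : Jf G (P.erase y) (insert y Z) = (Jf G P Z).filter fun x => s(y, x) ∉ G := by
        ext x
        unfold Jf
        rw [mem_filter, mem_filter, mem_filter]
        constructor
        · rintro ⟨h0, h1, h2, h3⟩
          rw [mem_insert, not_or] at h2
          exact ⟨⟨h0, fun h4 => h1 (mem_erase.2 ⟨h2.1, h4⟩), h2.2,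
            fun z hz => h3 z (mem_insert_of_mem hz)⟩, h3 y (mem_insert_self _ _)⟩
        · rintro ⟨⟨h0, h1, h2, h3⟩, h4⟩
          refine ⟨h0, fun h5 => h1 (mem_of_mem_erase h5), ?_, ?_⟩
          · rw [mem_insert, not_or]
            exact ⟨fun e => h1 (e ▸ hyP), h2⟩
          · intro w hw
            rcases mem_insert.1 hw with rfl | hw
            · exact h4
            · exact h3 w hw
      by_cases g4 : (Jf G (P.erase y) (insert y Z)).Nonempty
      · refine ih k (P.erase y) (insert y Z) e5 g1 hP' (insert_nonempty _ _) g2 g4 ?_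
        have g5 := card_filter_not_aa G (Jf G P Z) y
        rw [← g3] at g5
        have g6 : (NZ G (P.erase y) (insert y Z)).card ≤ (NZ G (P.erase y) Z).card + ∑ t ∈ P, aa G y t := by
          rw [← card_filter_aa]
          refine (card_le_card (t := NZ G (P.erase y) Z ∪ P.filter fun x => s(y, x) ∈ G) ?_).trans
            (card_union_le _ _)
          intro x hx
          unfold NZ at hx ⊢
          rw [mem_filter] at hx
          obtain ⟨hx1, w, hw, hwx⟩ := hx
          rcases mem_insert.1 hw with rfl | hw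
          · exact mem_union_right _ (mem_filter.2 ⟨mem_of_mem_erase hx1, hwx⟩)
          · exact mem_union_left _ (mem_filter.2 ⟨hx1, w, hw, hwx⟩)
        have g7 : SS G (Jf G (P.erase y) (insert y Z)) (P.erase y) ≤ SS G (Jf G P Z) (P.erase y) := by
          rw [g3]
          exact SS_mono_left (filter_subset _ _)
        omega
      · refine ack_of_ac k (ac_dom g1 (insert_nonempty _ _) g2 fun x hx1 hx2 => ?_)
        by_contra hcon
        push Not at hcon
        exact g4 ⟨x, mem_filter.2 ⟨mem_univ _, hx1, hx2, hcon⟩⟩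

/-- (D2) -/
theorem d2 {G : Finset (Sym2 V)} (hG : ∀ e ∈ G, ¬ e.IsDiag) : ∀ (n k : ℕ) (P : Finset V),
    P.card = n → P.Nonempty → (univ \ P).Nonempty →
    2 * k + SS G P P + 2 * SS G (univ \ P) P + 6 ≤ 4 * P.card + 2 * (univ \ P).card →
    ACk k (Kc G P ∅) := by
  intro n
  induction n with
  | zero =>
    intro k P hc hP
    exact absurd hc (card_pos.2 hP).ne'
  | succ n ih =>
    intro k P hc hP hX hb
    by_cases c1 : ∃ x ∈ univ \ P, ∀ y ∈ P, s(x, y) ∉ G
    · obtain ⟨x, hx, hxP⟩ := c1
      rw [mem_sdiff] at hx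
      obtain ⟨p, hp⟩ := hP
      refine ack_full k ⟨p, hp⟩ fun M hM => ⟨insert x (insert p M), ?_, disc_insert ?_ ?_ ?_⟩
      · rw [union_empty]
        exact (subset_insert _ _).trans (subset_insert _ _)
      · exact insert_nonempty _ _
      · intro h
        rcases mem_insert.1 h with h | h
        · exact hx.2 (h ▸ hp)
        · exact hx.2 (hM h)
      · intro u hu
        rcases mem_insert.1 hu with h | h
        · rw [h]
          exact hxP p hp
        · exact hxP u (hM h)
    push Not at c1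
    obtain ⟨x0, hx0⟩ := hX
    obtain ⟨y, hyP, hxy⟩ := c1 x0 hx0
    have e1 := SS_self hG hyP
    have e2 := SS_erase_right (G := G) (A := univ \ P) hyP
    have e3 : 1 ≤ ∑ t ∈ univ \ P, aa G y t := by
      have h1 : aa G y x0 ≤ ∑ t ∈ univ \ P, aa G y t := single_le_sum (fun _ _ => Nat.zero_le _) hx0
      have h2 : aa G y x0 = 1 := if_pos (by rw [Sym2.eq_swap]; exact hxy)
      omega
    have e5 : (P.erase y).card = n := by
      rw [card_erase_of_mem hyP]
      omega
    have hP' : (P.erase y).Nonempty := by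
      rw [nonempty_iff_ne_empty]
      intro h0
      have h1 : P = {y} := by
        ext x
        rw [mem_singleton]
        constructor
        · intro hx
          by_contra hne
          have : x ∈ P.erase y := mem_erase.2 ⟨hne, hx⟩
          rw [h0] at this
          exact notMem_empty _ this
        · rintro rfl
          exact hyP
      have h2 : ∑ t ∈ univ \ P, aa G y t = (univ \ P).card := by
        rw [card_eq_sum_ones]
        refine sum_congr rfl fun x hx => if_pos ?_
        obtain ⟨w, hw, hxw⟩ := c1 x hx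
        rw [h1, mem_singleton] at hw
        rw [Sym2.eq_swap, ← hw]
        exact hxw
      have h3 : P.card = 1 := by rw [h1]; simp
      omega
    have e6 : univ \ P.erase y = insert y (univ \ P) := by
      ext x
      rw [mem_sdiff, mem_insert, mem_sdiff, mem_erase]
      by_cases hx : x = y
      · simp [hx]
      · simp [hx]
    have e7 : y ∉ univ \ P := fun h => (mem_sdiff.1 h).2 hyP
    have e8 : SS G (insert y (univ \ P)) (P.erase y) = SS G (univ \ P) (P.erase y) + ∑ t ∈ P, aa G y t := by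
      rw [SS_erase_left (mem_insert_self y _), erase_insert e7, sum_erase_aa hG]
    have hdel : ∀ k, 2 * k + SS G P P + 2 * SS G (univ \ P) P + 6 ≤ 4 * P.card + 2 * (univ \ P).card →
        ACk k (Kc G (P.erase y) ∅) := by
      intro k hb
      refine ih k (P.erase y) e5 hP' ⟨x0, ?_⟩ ?_
      · rw [e6]
        exact mem_insert_of_mem hx0
      · rw [e6, e8, card_insert_of_notMem e7]
        omega
    rcases k with _ | k
    · exact ack_zero_of (K' := Kc G (P.erase y) ∅) (fun s hs => ((kc_del s).2 hs).1)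
        (fun h => (kc_del ∅).1 ⟨h, notMem_empty y⟩) (hdel 0 hb)
    · refine ack_add kc_dn y (ack_congr (fun s => (kc_del s).symm) (hdel (k + 1) hb)) ?_
      refine ack_congr (fun s => (kc_link hyP s).symm) ?_
      have e9 : (insert y (∅ : Finset V)) = {y} := rfl
      rw [e9]
      have g1 : Disjoint (P.erase y) {y} := by
        rw [disjoint_singleton_right]
        exact notMem_erase _ _
      have g3 : Jf G (P.erase y) {y} = (univ \ P).filter fun x => s(y, x) ∉ G := by
        ext x
        unfold Jf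
        rw [mem_filter, mem_filter, mem_sdiff]
        constructor
        · rintro ⟨h0, h1, h2, h3⟩
          rw [mem_singleton] at h2
          exact ⟨⟨h0, fun h4 => h1 (mem_erase.2 ⟨h2, h4⟩)⟩, h3 y (mem_singleton_self y)⟩
        · rintro ⟨⟨h0, h1⟩, h4⟩
          refine ⟨h0, fun h5 => h1 (mem_of_mem_erase h5), ?_, ?_⟩
          · rw [mem_singleton]
            exact fun e => h1 (e ▸ hyP)
          · intro w hw
            rw [mem_singleton.1 hw]
            exact h4
      by_cases g4 : (Jf G (P.erase y) {y}).Nonempty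
      · refine d1 hG _ k (P.erase y) {y} rfl g1 hP' (singleton_nonempty y) (not_disc_singleton y) g4 ?_
        have g5 := card_filter_not_aa G (univ \ P) y
        rw [← g3] at g5
        have g6 : (NZ G (P.erase y) {y}).card ≤ ∑ t ∈ P, aa G y t := by
          rw [← card_filter_aa]
          refine card_le_card ?_
          intro x hx
          unfold NZ at hx
          rw [mem_filter] at hx
          obtain ⟨hx1, w, hw, hwx⟩ := hx
          rw [mem_singleton] at hw
          subst hw
          exact mem_filter.2 ⟨mem_of_mem_erase hx1, hwx⟩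
        have g7 : SS G (Jf G (P.erase y) {y}) (P.erase y) ≤ SS G (univ \ P) (P.erase y) := by
          rw [g3]
          exact SS_mono_left (filter_subset _ _)
        omega
      · refine ack_of_ac k (ac_dom g1 (singleton_nonempty y) (not_disc_singleton y) fun x hx1 hx2 => ?_)
        by_contra hcon
        push Not at hcon
        exact g4 ⟨x, mem_filter.2 ⟨mem_univ _, hx1, hx2, hcon⟩⟩

theorem SS_insert_edge {G : Finset (Sym2 V)} {u v : V} (huv : u ≠ v) (h : s(u, v) ∉ G) :
    SS (insert s(u, v) G) univ univ = SS G univ univ + 2 := by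
  have h1 : ∀ x y, aa (insert s(u, v) G) x y = aa G x y + ((if x = u ∧ y = v then 1 else 0) +
      if x = v ∧ y = u then 1 else 0) := by
    intro x y
    unfold aa
    by_cases h2 : s(x, y) = s(u, v)
    · rw [if_pos (mem_insert.2 (Or.inl h2)), if_neg (by rw [h2]; exact h)]
      rcases Sym2.eq_iff.1 h2 with h3 | h3
      · rw [if_pos h3, if_neg (by rintro ⟨h4, h5⟩; exact huv (h3.1.symm.trans h4))]
      · rw [if_pos h3, if_neg (by rintro ⟨h4, h5⟩; exact huv (h4.symm.trans h3.1))]
    · have h3 : ¬ (x = u ∧ y = v) := by rintro ⟨rfl, rfl⟩; exact h2 rfl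
      have h4 : ¬ (x = v ∧ y = u) := by rintro ⟨rfl, rfl⟩; exact h2 Sym2.eq_swap
      rw [if_neg h3, if_neg h4]
      by_cases h5 : s(x, y) ∈ G
      · rw [if_pos h5, if_pos (mem_insert_of_mem h5)]
      · rw [if_neg h5, if_neg (by rw [mem_insert, not_or]; exact ⟨h2, h5⟩)]
  unfold SS
  simp only [h1, sum_add_distrib]
  have h5 : ∀ a b : V, ∑ x : V, ∑ y : V, (if x = a ∧ y = b then 1 else 0) = 1 := by
    intro a b
    rw [sum_eq_single a, sum_eq_single b]
    · simp
    · intro y _ hy
      rw [if_neg]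
      exact fun h => hy h.2
    · intro h
      exact absurd (mem_univ _) h
    · intro x _ hx
      refine sum_eq_zero fun y _ => ?_
      rw [if_neg]
      exact fun h => hx h.1
    · intro h
      exact absurd (mem_univ _) h
  rw [h5, h5]

theorem SS_univ {G : Finset (Sym2 V)} (hG : ∀ e ∈ G, ¬ e.IsDiag) : SS G univ univ = 2 * G.card := by
  induction G using Finset.induction_on with
  | empty => simp [SS, aa]
  | insert e G he ih =>
    induction e using Sym2.ind with
    | _ u v =>
      have huv : u ≠ v := fun h => hG s(u, v) (mem_insert_self _ _) (by simpa using h)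
      rw [SS_insert_edge huv he, ih fun e' he' => hG e' (mem_insert_of_mem he'), card_insert_of_notMem he]
      ring

/-- LEMMA D. -/
theorem ackN {G : Finset (Sym2 V)} (hG : ∀ e ∈ G, ¬ e.IsDiag) (hV : 2 ≤ Fintype.card V) (k : ℕ)
    (h : k + G.card + 4 ≤ 2 * Fintype.card V) : ACk k fun M : Finset V => ∃ W, M ⊆ W ∧ Disc W G := by
  refine ack_congr (K := Kc G univ ∅) (fun M => ?_) ?_
  · unfold Kc
    rw [union_empty]
    exact ⟨fun h => h.2, fun h => ⟨subset_univ _, h⟩⟩
  have hne : Nonempty V := Fintype.card_pos_iff.1 (by omega)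
  obtain ⟨z⟩ := hne
  have e1 := SS_self hG (mem_univ z)
  have e2 := SS_univ hG
  have e3 : (univ.erase z).card + 1 = Fintype.card V := by
    rw [card_erase_of_mem (mem_univ _), card_univ]
    omega
  have e4 : univ \ univ.erase z = {z} := by
    ext x
    simp
  have e5 : SS G {z} (univ.erase z) = ∑ t : V, aa G z t := by
    unfold SS
    rw [sum_singleton, sum_erase_aa hG]
  have hdel : ∀ k, k + G.card + 4 ≤ 2 * Fintype.card V → ACk k (Kc G (univ.erase z) ∅) := by
    intro k h
    refine d2 hG _ k (univ.erase z) rfl ?_ ?_ ?_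
    · rw [← card_pos]
      omega
    · rw [e4]
      exact singleton_nonempty z
    · rw [e4, e5, card_singleton]
      omega
  rcases k with _ | k
  · exact ack_zero_of (K' := Kc G (univ.erase z) ∅) (fun s hs => ((kc_del s).2 hs).1)
      (fun h => (kc_del ∅).1 ⟨h, notMem_empty z⟩) (hdel 0 h)
  · refine ack_add kc_dn z (ack_congr (fun s => (kc_del s).symm) (hdel (k + 1) h)) ?_
    refine ack_congr (fun s => (kc_link (mem_univ z) s).symm) ?_
    refine ack_of_ac k (ac_dom ?_ (insert_nonempty _ _) (not_disc_singleton z) fun x hx1 hx2 => ?_)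
    · rw [disjoint_left]
      intro x hx hx2
      rw [mem_insert] at hx2
      rcases hx2 with h | h
      · exact (mem_erase.1 hx).1 h
      · exact notMem_empty _ h
    · exfalso
      refine hx1 (mem_erase.2 ⟨fun e => hx2 (e ▸ mem_insert_self _ _), mem_univ _⟩)

end H85TF
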